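import Pool.Agent.Lib_MP_5027f4_mp.Deriv

/-!
# Smooth dependence of solutions of autonomous equations on the initial condition
-/

open Set Filter Topology Metric
open scoped NNReal ContDiff

namespace Pool.Agent.MP_a29272_sm

open Pool.Agent.MP_5027f4_mp

section Derivative

variable {E : Type*} [NormedAddCommGroup E] [NormedSpace ℝ E] [FiniteDimensional ℝ E]

/-- The derivative of the time `T` map is the value at time `T` of the fundamental solution of the
variational equation. -/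
theorem hasFDerivAt_flow {G : E → E} (hG : ContDiff ℝ 2 G) {U : Set E} (hU : IsOpen U) {T : ℝ}
    (hT : 0 ≤ T) {φ : E → ℝ → E} (h0 : ∀ y ∈ U, φ y 0 = y)
    (hφ : ∀ y ∈ U, ∀ t ∈ Icc 0 T, HasDerivWithinAt (φ y) (G (φ y t)) (Icc 0 T) t)
    {y₀ : E} (hy₀ : y₀ ∈ U) {A : ℝ → E →L[ℝ] E} (hA0 : A 0 = ContinuousLinearMap.id ℝ E)
    (hA : ∀ t ∈ Icc 0 T,
      HasDerivWithinAt A ((fderiv ℝ G (φ y₀ t)).comp (A t)) (Icc 0 T) t) :
    HasFDerivAt (fun y => φ y T) (A T) y₀ := by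
  have hsol : ∀ y ∈ U, Solves G univ (Icc 0 T) (φ y) := fun y hy t ht =>
    ⟨mem_univ _, hφ y hy t ht⟩
  have hK : IsCompact (φ y₀ '' Icc 0 T) :=
    isCompact_Icc.image_of_continuousOn (hsol y₀ hy₀).continuousOn
  obtain ⟨G', V, hG', hG'c, hVo, hKV, -, hGV⟩ :=
    exists_cutoff isOpen_univ hG.contDiffOn hK (subset_univ _)
  have hGd : ∀ z ∈ V, fderiv ℝ G' z = fderiv ℝ G z := by
    intro z hz
    apply Filter.EventuallyEq.fderiv_eq
    filter_upwards [hVo.mem_nhds hz] with w hw using hGV w hw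
  have hmem : ∀ t ∈ Icc 0 T, φ y₀ t ∈ V := fun t ht => hKV ⟨t, ht, rfl⟩
  have hsol' : Solves G' univ (Icc 0 T) (φ y₀) := by
    intro t ht
    refine ⟨mem_univ _, ?_⟩
    rw [hGV _ (hmem t ht)]
    exact hφ y₀ hy₀ t ht
  have hA' : ∀ t ∈ Icc 0 T,
      HasDerivWithinAt A ((fderiv ℝ G' (φ y₀ t)).comp (A t)) (Icc 0 T) t := by
    intro t ht
    rw [hGd _ (hmem t ht)]
    exact hA t ht
  obtain ⟨r, hr, hrV⟩ := hK.exists_thickening_subset_open hVo hKV
  obtain ⟨δ₁, hδ₁, hnear⟩ := exists_near_forward isOpen_univ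
    (hG.of_le (by norm_num)).contDiffOn hT (hsol y₀ hy₀) hr
  obtain ⟨δ₂, hδ₂, hball⟩ := Metric.isOpen_iff.mp hU y₀ hy₀
  have hstay : ∀ y, dist y y₀ < min δ₁ δ₂ → Solves G' univ (Icc 0 T) (φ y) := by
    intro y hy t ht
    have hyU : y ∈ U := hball (lt_of_lt_of_le hy (min_le_right _ _))
    obtain ⟨z, hz0, hz, hzd⟩ := hnear y (by
      rw [h0 y₀ hy₀]
      exact lt_of_lt_of_le hy (min_le_left _ _))
    have heq : EqOn z (φ y) (Icc 0 T) :=
      hz.eqOn_of_eq isOpen_univ (hG.of_le (by norm_num)).contDiffOn (hsol y hyU)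
        (by rw [hz0, h0 y hyU])
    refine ⟨mem_univ _, ?_⟩
    rw [hGV]
    · exact hφ y hyU t ht
    · apply hrV
      rw [mem_thickening_iff]
      exact ⟨φ y₀ t, ⟨t, ht, rfl⟩, by rw [← heq ht]; exact hzd t ht⟩
  rw [hasFDerivAt_iff_isLittleO, Asymptotics.isLittleO_iff]
  intro ε hε
  obtain ⟨δ, hδ, hst⟩ := flow_strict hG' hG'c hT hsol' hA0 hA' hε
  filter_upwards [ball_mem_nhds y₀ (show 0 < min δ (min δ₁ δ₂) by positivity)] with y hy
  rw [mem_ball] at hy
  have hy1 : dist y y₀ < δ := lt_of_lt_of_le hy (min_le_left _ _)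
  have hy2 : dist y y₀ < min δ₁ δ₂ := lt_of_lt_of_le hy (min_le_right _ _)
  have hyU : y ∈ U := hball (lt_of_lt_of_le hy2 (min_le_right _ _))
  have := hst (φ y) (φ y₀) (hstay y hy2) hsol' (by rw [h0 y hyU, h0 y₀ hy₀]; exact hy1)
    (by rw [dist_self]; exact hδ)
  rw [h0 y hyU, h0 y₀ hy₀] at this
  exact this

end Derivative

/-- **Smooth dependence on the initial condition** (finite order). -/
theorem contDiffOn_flow_nat (n : ℕ) : ∀ {E : Type*} [NormedAddCommGroup E] [NormedSpace ℝ E]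
    [FiniteDimensional ℝ E] {G : E → E} (_ : ContDiff ℝ ∞ G) {U : Set E} (_ : IsOpen U) {T : ℝ}
    (_ : 0 ≤ T) {φ : E → ℝ → E} (_ : ∀ y ∈ U, φ y 0 = y)
    (_ : ∀ y ∈ U, ∀ t ∈ Icc 0 T, HasDerivWithinAt (φ y) (G (φ y t)) (Icc 0 T) t),
    ContDiffOn ℝ n (fun y => φ y T) U := by
  induction n with
  | zero =>
    intro E _ _ _ G hG U hU T hT φ h0 hφ
    have hG2 : ContDiff ℝ 2 G := by
      exact_mod_cast contDiff_infty.mp hG 2
    rw [Nat.cast_zero, contDiffOn_zero]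
    intro y hy
    obtain ⟨A, hA0, hA⟩ := exists_fundamental hG2 hT (x := φ y)
      (fun t ht => ⟨mem_univ _, hφ y hy t ht⟩)
    exact (hasFDerivAt_flow hG2 hU hT h0 hφ hy hA0 hA).continuousAt.continuousWithinAt
  | succ n ih =>
    intro E _ _ _ G hG U hU T hT φ h0 hφ
    have hG2 : ContDiff ℝ 2 G := by
      exact_mod_cast contDiff_infty.mp hG 2
    have hex : ∀ y : E, ∃ A : ℝ → E →L[ℝ] E, y ∈ U → A 0 = ContinuousLinearMap.id ℝ E ∧
        ∀ t ∈ Icc 0 T, HasDerivWithinAt A ((fderiv ℝ G (φ y t)).comp (A t)) (Icc 0 T) t := by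
      intro y
      by_cases hy : y ∈ U
      · obtain ⟨A, hA⟩ := exists_fundamental hG2 hT (x := φ y)
          (fun t ht => ⟨mem_univ _, hφ y hy t ht⟩)
        exact ⟨A, fun _ => hA⟩
      · exact ⟨0, fun h => absurd h hy⟩
    choose A hA using hex
    have hd : ∀ y ∈ U, HasFDerivAt (fun y => φ y T) (A y T) y := fun y hy =>
      hasFDerivAt_flow hG2 hU hT h0 hφ hy (hA y hy).1 (hA y hy).2
    have hcast : ((n + 1 : ℕ) : ℕ∞ω) = (n : ℕ∞ω) + 1 := by push_cast; rfl
    rw [hcast, contDiffOn_succ_iff_fderiv_of_isOpen hU]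
    refine ⟨fun y hy => (hd y hy).differentiableAt.differentiableWithinAt, by simp, ?_⟩
    set FF : E × (E →L[ℝ] E) → E × (E →L[ℝ] E) := fun z => (G z.1, (fderiv ℝ G z.1).comp z.2)
      with hFF
    have hFFc : ContDiff ℝ ∞ FF := by
      have h1 : ContDiff ℝ ∞ (fderiv ℝ G) := hG.fderiv_right (by simp)
      exact (hG.comp contDiff_fst).prodMk ((h1.comp contDiff_fst).clm_comp contDiff_snd)
    have key := ih hFFc (U := U ×ˢ univ) (hU.prod isOpen_univ) hT
      (φ := fun z t => (φ z.1 t, (A z.1 t).comp z.2))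
      (by
        rintro ⟨y, B⟩ ⟨hy, -⟩
        simp only at hy ⊢
        rw [h0 y hy, (hA y hy).1, ContinuousLinearMap.id_comp])
      (by
        rintro ⟨y, B⟩ ⟨hy, -⟩ t ht
        simp only at hy ⊢
        have h1 := (hA y hy).2 t ht
        have h2 : HasDerivWithinAt (fun t => (A y t).comp B)
            (((fderiv ℝ G (φ y t)).comp (A y t)).comp B) (Icc 0 T) t := by
          have := h1.clm_comp (hasDerivWithinAt_const t (Icc 0 T) B)
          simpa using this
        exact (hφ y hy t ht).prodMk h2)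
    have h3 : ContDiffOn ℝ n (fun y : E => (A y T).comp (ContinuousLinearMap.id ℝ E)) U := by
      have h4 : ContDiffOn ℝ n (fun y : E => (y, ContinuousLinearMap.id ℝ E)) U :=
        (contDiff_id.prodMk contDiff_const).contDiffOn
      have h5 := key.comp h4 (fun y hy => ⟨hy, mem_univ _⟩)
      exact h5.snd
    refine h3.congr fun y hy => ?_
    rw [(hd y hy).fderiv, ContinuousLinearMap.comp_id]

/-- **Smooth dependence on the initial condition.** -/
theorem contDiffOn_flow {E : Type*} [NormedAddCommGroup E] [NormedSpace ℝ E]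
    [FiniteDimensional ℝ E] {G : E → E} (hG : ContDiff ℝ ∞ G) {U : Set E} (hU : IsOpen U) {T : ℝ}
    (hT : 0 ≤ T) {φ : E → ℝ → E} (h0 : ∀ y ∈ U, φ y 0 = y)
    (hφ : ∀ y ∈ U, ∀ t ∈ Icc 0 T, HasDerivWithinAt (φ y) (G (φ y t)) (Icc 0 T) t) :
    ContDiffOn ℝ ∞ (fun y => φ y T) U := by
  rw [contDiffOn_infty]
  exact fun n => contDiffOn_flow_nat n hG hU hT h0 hφ

section Existence

variable {E : Type*} [NormedAddCommGroup E] [NormedSpace ℝ E] [FiniteDimensional ℝ E]

/-- Existence up to time `T` from an a priori bound. -/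
theorem exists_solution_of_bound {G : E → E} (hG : ContDiff ℝ 1 G) {T : ℝ} (hT : 0 ≤ T) (p : E)
    (R : ℝ) (hR : ∀ τ ∈ Icc 0 T, ∀ y : ℝ → E, y 0 = p →
      (∀ t ∈ Icc 0 τ, HasDerivWithinAt y (G (y t)) (Icc 0 τ) t) → ∀ t ∈ Icc 0 τ, ‖y t‖ ≤ R) :
    ∃ y : ℝ → E, y 0 = p ∧ ∀ t ∈ Icc 0 T, HasDerivWithinAt y (G (y t)) (Icc 0 T) t := by
  obtain ⟨G', L, B, V, hVo, hKV, -, hL, hB, hGF⟩ := exists_lipschitz_cutoff isOpen_univ
    hG.contDiffOn (isCompact_closedBall (0 : E) (R + 1)) (subset_univ _)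
  obtain ⟨y, hy0, hy⟩ := exists_sol_of_lipschitz hL hB p hT
  have hycont : ContinuousOn y (Icc 0 T) := fun t ht => (hy t ht).continuousWithinAt
  have hp : ‖p‖ ≤ R := by
    have := hR 0 ⟨le_rfl, hT⟩ (fun _ => p) rfl (fun t ht => by
      have ht0 : t = 0 := by
        have := ht.1
        have := ht.2
        linarith
      subst ht0
      rw [Icc_self]
      refine HasFDerivWithinAt.of_not_accPt ?_
      rw [accPt_iff_clusterPt, inf_principal]
      simp [ClusterPt]) 0 ⟨le_rfl, le_rfl⟩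
    exact this
  have hmain : ∀ t ∈ Icc 0 T, ‖y t‖ < R + 1 := by
    by_contra hcon
    push Not at hcon
    obtain ⟨t₂, ht₂, hyt₂⟩ := hcon
    set S : Set ℝ := {t ∈ Icc 0 T | R + 1 ≤ ‖y t‖} with hS
    have hSc : IsClosed S := by
      have h1 : IsClosed (Icc (0 : ℝ) T ∩ (fun t => ‖y t‖) ⁻¹' Ici (R + 1)) :=
        (hycont.norm).preimage_isClosed_of_isClosed isClosed_Icc isClosed_Ici
      exact h1
    have hSne : S.Nonempty := ⟨t₂, ht₂, hyt₂⟩
    have hSb : BddBelow S := ⟨0, fun t ht => ht.1.1⟩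
    set t₁ := sInf S with ht₁
    have ht₁S : t₁ ∈ S := hSc.csInf_mem hSne hSb
    have hsub : Icc 0 t₁ ⊆ Icc 0 T := Icc_subset_Icc_right ht₁S.1.2
    have hlt : ∀ t ∈ Ico 0 t₁, ‖y t‖ < R + 1 := by
      intro t ht
      by_contra h
      push Not at h
      have : t₁ ≤ t := csInf_le hSb ⟨hsub ⟨ht.1, ht.2.le⟩, h⟩
      exact absurd ht.2 (not_lt.mpr this)
    have hle : ∀ t ∈ Icc 0 t₁, ‖y t‖ ≤ R + 1 := by
      intro t ht
      rcases eq_or_lt_of_le ht.2 with h | h
      · subst h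
        rcases eq_or_lt_of_le ht.1 with h0 | h0
        · rw [← h0, hy0]
          linarith
        · -- limit from the left
          have hcl : t₁ ∈ closure (Ico 0 t₁) := by
            rw [closure_Ico h0.ne]
            exact ⟨h0.le, le_rfl⟩
          have hcw : ContinuousWithinAt (fun t => ‖y t‖) (Ico 0 t₁) t₁ :=
            ((hycont t₁ ht₁S.1).norm).mono (Ico_subset_Icc_self.trans hsub)
          exact closure_minimal (s := (fun t => ‖y t‖) '' Ico 0 t₁) (t := Iic (R + 1))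
            (by rintro _ ⟨s, hs, rfl⟩; exact (hlt s hs).le) isClosed_Iic
            (hcw.mem_closure_image hcl)
      · exact (hlt t ⟨ht.1, h⟩).le
    have hsolve : ∀ t ∈ Icc 0 t₁, HasDerivWithinAt y (G (y t)) (Icc 0 t₁) t := by
      intro t ht
      have h1 := (hy t (hsub ht)).mono hsub
      rw [hGF (y t) (hKV (by simpa using hle t ht))] at h1
      exact h1
    have := hR t₁ ⟨ht₁S.1.1, ht₁S.1.2⟩ y hy0 hsolve t₁ ⟨ht₁S.1.1, le_rfl⟩
    linarith [ht₁S.2]
  refine ⟨y, hy0, fun t ht => ?_⟩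
  have h1 := hy t ht
  rw [hGF (y t) (hKV (by simpa using (hmain t ht).le))] at h1
  exact h1

end Existence

end Pool.Agent.MP_a29272_sm
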